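import Pool.Agent.Lib.MP_4b55a0_lc.Shortest

/-!
# Deciding quasiperiodicity of fixed points of morphisms

A morphism on the alphabet `{0, ..., f.length - 1}` is given by the list `f` of the images of the
letters (erasing morphisms are allowed); the input is `(f, a)` where `f(a)` begins with `a`.
The set of inputs for which `f^ω(a)` (an infinite or a finite word) is quasiperiodic is
computable, and the shortest quasiperiod can be computed.
-/

namespace Pool.Agent.Results.MP_4b55a0_lc.ShortestQuasiperiod

/-- The image of the word `u` under the morphism which sends the letter `b` to the word `f[b]`. -/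
def apply (f : List (List ℕ)) (u : List ℕ) : List ℕ := u.flatMap fun b => f.getD b []

/-- `(f, a)` is an input: `f` lists the images of the letters `0, ..., f.length - 1`, which are
words over this alphabet, and `f(a)` begins with the letter `a`. -/
structure IsInput (f : List (List ℕ)) (a : ℕ) : Prop where
  letter : a < f.length
  words : ∀ u ∈ f, ∀ c ∈ u, c < f.length
  prolongable : [a] <+: apply f [a]

/-- The lengths of the words `f^n(a)` are unbounded and `w` is the infinite word `f^ω(a)`: every
`f^n(a)` is a prefix of `w`. -/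
def IsInfiniteFixedPoint (f : List (List ℕ)) (a : ℕ) (w : ℕ → ℕ) : Prop :=
  (∀ m, ∃ n, m < ((apply f)^[n] [a]).length) ∧
    ∀ n, ∃ k, (apply f)^[n] [a] = (List.range k).map w

/-- The words `f^n(a)` are all equal to `w` for large `n`: the finite case of `f^ω(a)`. -/
def IsFiniteFixedPoint (f : List (List ℕ)) (a : ℕ) (w : List ℕ) : Prop :=
  ∃ N, ∀ n, N ≤ n → (apply f)^[n] [a] = w

/-- Every position of the infinite word `w` lies inside an occurrence of `x` in `w`. -/
def CoversInfinite (x : List ℕ) (w : ℕ → ℕ) : Prop :=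
  ∀ i, ∃ j, j ≤ i ∧ i < j + x.length ∧ ∀ t (ht : t < x.length), w (j + t) = x[t]

/-- Every position of the finite word `w` lies inside an occurrence of `x` in `w`. -/
def CoversFinite (x w : List ℕ) : Prop :=
  ∀ i, i < w.length → ∃ u v, w = u ++ x ++ v ∧ u.length ≤ i ∧ i < u.length + x.length

/-- `x` is a quasiperiod of `f^ω(a)`: a finite word different from `f^ω(a)` which covers it. -/
def IsQuasiperiod (f : List (List ℕ)) (a : ℕ) (x : List ℕ) : Prop :=
  (∃ w : ℕ → ℕ, IsInfiniteFixedPoint f a w ∧ CoversInfinite x w) ∨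
    ∃ w : List ℕ, IsFiniteFixedPoint f a w ∧ x ≠ w ∧ CoversFinite x w

open Pool.Agent.QP

private theorem isInput_iff (f : List (List ℕ)) (a : ℕ) : IsInput f a ↔ Valid (f, a) := by
  have h : [a] <+: apply f [a] ↔ (f.getD a []).head? = some a := by
    have e : apply f [a] = f.getD a [] := stp_sing f a
    rw [e]
    rcases f.getD a [] with _ | ⟨b, t⟩
    · simp
    · simp [List.cons_prefix_cons, eq_comm]
  constructor
  · rintro ⟨h1, h2, h3⟩
    exact ⟨h1, h2, h.1 h3⟩
  · rintro ⟨h1, h2, h3⟩
    exact ⟨h1, h2, h.2 h3⟩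

private theorem getD_map_range (w : ℕ → ℕ) {k i : ℕ} (hi : i < k) :
    ((List.range k).map w).getD i 0 = w i := by
  rw [List.getD_eq_getElem _ _ (by simpa using hi)]
  simp

private theorem inf_eq {f : List (List ℕ)} {a : ℕ} (hv : Valid (f, a)) {w : ℕ → ℕ}
    (h : IsInfiniteFixedPoint f a w) : w = wf (f, a) := by
  funext i
  obtain ⟨k, hk⟩ := h.2 i
  have h1 : i < ((stp f)^[i] [a]).length := lt_len hv.2.2 h.1 i
  have h2 : (stp f)^[i] [a] = (List.range k).map w := hk
  show w i = ((stp f)^[i] [a]).getD i 0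
  rw [h2] at h1 ⊢
  rw [getD_map_range w (by simpa using h1)]

private theorem inf_wf {f : List (List ℕ)} {a : ℕ} (hv : Valid (f, a))
    (hg : ∀ m : ℕ, ∃ n : ℕ, m < ((stp f)^[n] [a]).length) :
    IsInfiniteFixedPoint f a (wf (f, a)) :=
  ⟨hg, fun _ => ⟨_, prefix_eq hv.2.2 hg (List.prefix_refl _)⟩⟩

private theorem fin_of {f : List (List ℕ)} {a : ℕ} (hv : Valid (f, a)) {w : List ℕ}
    (h : IsFiniteFixedPoint f a w) : Stab (f, a) f.length ∧ w = fin (f, a) := by
  obtain ⟨N, hN⟩ := h
  have h1 : Stab (f, a) N := by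
    have e1 : (stp f)^[N] [a] = w := hN N le_rfl
    have e2 : (stp f)^[N + 1] [a] = w := hN (N + 1) (Nat.le_succ _)
    show ((stp f)^[N] [a]).length = ((stp f)^[N + 1] [a]).length
    rw [e1, e2]
  have h2 := stab_length hv.2.2 hv.1 hv.2.1 h1
  refine ⟨h2, ?_⟩
  rw [← fin_eq hv.2.2 h2 (le_max_right N f.length)]
  exact (hN _ (le_max_left _ _)).symm

private theorem fin_fix {f : List (List ℕ)} {a : ℕ} (hv : Valid (f, a))
    (h : Stab (f, a) f.length) : IsFiniteFixedPoint f a (fin (f, a)) :=
  ⟨f.length, fun _ hn => fin_eq hv.2.2 h hn⟩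

private theorem coversInfinite_iff (x : List ℕ) (w : ℕ → ℕ) :
    CoversInfinite x w ↔ ∃ m, CovI w m ∧ x = (List.range m).map w := by
  constructor
  · intro h
    obtain ⟨j0, a1, _, a3⟩ := h 0
    have hj0 : j0 = 0 := by omega
    subst hj0
    refine ⟨x.length, fun i => ?_, ?_⟩
    · obtain ⟨j, h1, h2, h3⟩ := h i
      refine ⟨j, h1, h2, fun t ht => ?_⟩
      rw [h3 t ht, ← a3 t ht, Nat.zero_add]
    · apply List.ext_getElem
      · simp
      · intro i h1 h2
        rw [List.getElem_map, List.getElem_range, ← a3 i h1, Nat.zero_add]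
  · rintro ⟨m, hm, rfl⟩ i
    obtain ⟨j, h1, h2, h3⟩ := hm i
    refine ⟨j, h1, by simpa using h2, fun t ht => ?_⟩
    have ht' : t < m := by simpa using ht
    rw [List.getElem_map, List.getElem_range]
    exact (h3 t ht').symm

private theorem coversFinite_iff (x L : List ℕ) (hL : 0 < L.length) :
    (x ≠ L ∧ CoversFinite x L) ↔ ∃ m, m < L.length ∧ CovL L m ∧ x = L.take m := by
  constructor
  · rintro ⟨hne, h⟩
    obtain ⟨u0, v0, e0, b1, _⟩ := h 0 hL
    have hu0 : u0 = [] := List.length_eq_zero_iff.1 (by omega)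
    subst hu0
    rw [List.nil_append] at e0
    have hpre : x = L.take x.length := by
      conv_rhs => rw [e0]
      simp
    have hle : x.length ≤ L.length := by
      rw [e0]
      simp
    have hlt : x.length < L.length := by
      rcases hle.lt_or_eq with h1 | h1
      · exact h1
      · exfalso
        apply hne
        rw [hpre, h1]
        simp
    refine ⟨x.length, hlt, fun i hi => ?_, hpre⟩
    obtain ⟨u, v, e, h1, h2⟩ := h i hi
    refine ⟨u.length, by omega, h2, ?_, fun t ht => ?_⟩
    · have := congrArg List.length e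
      simp only [List.length_append] at this
      omega
    · have e1 : L.getD (u.length + t) 0 = x.getD t 0 := by
        rw [e, List.append_assoc, List.getD_append_right _ _ _ _ (by omega)]
        rw [Nat.add_sub_cancel_left, List.getD_append _ _ _ _ ht]
      have e2 : L.getD t 0 = x.getD t 0 := by
        conv_lhs => rw [e0]
        rw [List.getD_append _ _ _ _ ht]
      rw [e1, e2]
  · rintro ⟨m, hm, hc, rfl⟩
    have hlen : (L.take m).length = m := by
      rw [List.length_take]
      omega
    refine ⟨fun h0 => ?_, fun i hi => ?_⟩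
    · have := congrArg List.length h0
      omega
    · obtain ⟨j, h1, h2, h3, h4⟩ := hc i hi
      have e : (L.drop j).take m = L.take m := by
        apply List.ext_getElem
        · simp only [List.length_take, List.length_drop]
          omega
        · intro t ht ht'
          have htm : t < m := by
            rw [hlen] at ht'
            exact ht'
          have := h4 t htm
          rw [List.getD_eq_getElem _ _ (by omega), List.getD_eq_getElem _ _ (by omega)] at this
          simpa using this
      refine ⟨L.take j, L.drop (j + m), ?_, ?_, ?_⟩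
      · have e3 : L.drop (j + m) = (L.drop j).drop m := by
          rw [List.drop_drop]
        rw [← e, e3, List.append_assoc, List.take_append_drop, List.take_append_drop]
      · rw [List.length_take]
        omega
      · rw [hlen, List.length_take]
        omega

private theorem fin_length_pos {f : List (List ℕ)} {a : ℕ} (hv : Valid (f, a)) :
    0 < (fin (f, a)).length := by
  have h := w_mono (F := f) (a := a) hv.2.2 (Nat.zero_le f.length)
  have h1 := h.length_le
  have h2 : ((stp f)^[0] [a]).length = 1 := rfl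
  rw [h2] at h1
  exact h1

private theorem quasi_inf {f : List (List ℕ)} {a : ℕ} (hv : Valid (f, a))
    (hg : ∀ m : ℕ, ∃ n : ℕ, m < ((stp f)^[n] [a]).length) (x : List ℕ) :
    IsQuasiperiod f a x ↔ ∃ m, CovI (wf (f, a)) m ∧ x = (List.range m).map (wf (f, a)) := by
  rw [← coversInfinite_iff]
  constructor
  · rintro (⟨w, hw, hc⟩ | ⟨w, hw, _⟩)
    · rw [← inf_eq hv hw]
      exact hc
    · exact absurd (fin_of hv hw).1 (not_stab hv.2.2 hg _)
  · intro h
    exact Or.inl ⟨_, inf_wf hv hg, h⟩

private theorem quasi_fin {f : List (List ℕ)} {a : ℕ} (hv : Valid (f, a))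
    (hs : Stab (f, a) f.length) (x : List ℕ) :
    IsQuasiperiod f a x ↔ ∃ m, m < (fin (f, a)).length ∧ CovL (fin (f, a)) m ∧
      x = (fin (f, a)).take m := by
  rw [← coversFinite_iff _ _ (fin_length_pos hv)]
  constructor
  · rintro (⟨w, hw, _⟩ | ⟨w, hw, hc⟩)
    · exact absurd hs (not_stab hv.2.2 hw.1 _)
    · rw [← (fin_of hv hw).2]
      exact hc
  · intro h
    exact Or.inr ⟨_, fin_fix hv hs, h⟩

private theorem alg_iff {f : List (List ℕ)} {a : ℕ} (hv : Valid (f, a)) (x : List ℕ) :
    alg (f, a) = some x ↔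
      IsQuasiperiod f a x ∧ ∀ y, IsQuasiperiod f a y → x.length ≤ y.length := by
  by_cases hg : ∀ m : ℕ, ∃ n : ℕ, m < ((stp f)^[n] [a]).length
  · rw [alg_infinite hv hg, quasi_inf hv hg]
    constructor
    · rintro ⟨m, h1, h2, rfl⟩
      refine ⟨⟨m, h1, rfl⟩, fun y hy => ?_⟩
      obtain ⟨m', h3, rfl⟩ := (quasi_inf hv hg y).1 hy
      simpa using h2 m' h3
    · rintro ⟨⟨m, h1, rfl⟩, h2⟩
      refine ⟨m, h1, fun m' hm' => ?_, rfl⟩
      have := h2 _ ((quasi_inf hv hg _).2 ⟨m', hm', rfl⟩)
      simpa using this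
  · have hs := stab_of_bounded hv.2.2 hv.1 hv.2.1 hg
    rw [alg_finite hv hs, quasi_fin hv hs]
    constructor
    · rintro ⟨m, h0, h1, h2, rfl⟩
      refine ⟨⟨m, h0, h1, rfl⟩, fun y hy => ?_⟩
      obtain ⟨m', h3, h4, rfl⟩ := (quasi_fin hv hs y).1 hy
      have := h2 m' h4
      simp only [List.length_take]
      omega
    · rintro ⟨⟨m, h0, h1, rfl⟩, h2⟩
      refine ⟨m, h0, h1, fun m' hm' => ?_, rfl⟩
      by_contra hlt
      have := h2 _ ((quasi_fin hv hs _).2 ⟨m', by omega, hm', rfl⟩)
      simp only [List.length_take] at this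
      omega

private theorem exists_shortest {f : List (List ℕ)} {a : ℕ} (h : ∃ x, IsQuasiperiod f a x) :
    ∃ x, IsQuasiperiod f a x ∧ ∀ y, IsQuasiperiod f a y → x.length ≤ y.length := by
  classical
  have h' : ∃ m x, IsQuasiperiod f a x ∧ x.length = m := by
    obtain ⟨x, hx⟩ := h
    exact ⟨_, x, hx, rfl⟩
  obtain ⟨x, h1, h2⟩ := Nat.find_spec h'
  refine ⟨x, h1, fun y hy => ?_⟩
  rw [h2]
  exact Nat.find_min' h' ⟨y, hy, rfl⟩

theorem result :
    ComputablePred (fun p : List (List ℕ) × ℕ =>
      IsInput p.1 p.2 ∧ ∃ x, IsQuasiperiod p.1 p.2 x) ∧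
    ∃ alg : List (List ℕ) × ℕ → Option (List ℕ), Computable alg ∧
      ∀ f a, IsInput f a → ∀ x, alg (f, a) = some x ↔
        IsQuasiperiod f a x ∧ ∀ y, IsQuasiperiod f a y → x.length ≤ y.length := by
  constructor
  · refine ComputablePred.computable_iff.2 ⟨fun p => (alg p).isSome,
      Primrec.option_isSome.to_comp.comp computable_alg, ?_⟩
    funext p
    obtain ⟨f, a⟩ := p
    apply propext
    show (IsInput f a ∧ ∃ x, IsQuasiperiod f a x) ↔ (alg (f, a)).isSome = true
    rw [Option.isSome_iff_exists]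
    constructor
    · rintro ⟨h1, h2⟩
      obtain ⟨x, hx⟩ := exists_shortest h2
      exact ⟨x, (alg_iff ((isInput_iff f a).1 h1) x).2 hx⟩
    · rintro ⟨x, hx⟩
      have hv : Valid (f, a) := by
        by_contra hv
        rw [alg_invalid hv] at hx
        simp at hx
      exact ⟨(isInput_iff f a).2 hv, x, ((alg_iff hv x).1 hx).1⟩
  · exact ⟨alg, computable_alg, fun f a h x => alg_iff ((isInput_iff f a).1 h) x⟩

end Pool.Agent.Results.MP_4b55a0_lc.ShortestQuasiperiod
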